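import Pool.Agent.Lib.LocD.C9

/-!
# MP_5c8454_co: distinct distances, local property `C(k,2) - k + c` for every constant `c`: at least `n^(6/5-ε)` distances
-/

namespace Pool.Agent.Results.MP_5c8454_co.AllConstants

/-- For every `ε > 0` there are `γ > 0` and `k₀` such that for all `k ≥ k₀` and all `ℓ ≥ C(k,2) - (1+γ) k` there is `c > 0` such that
every finite planar set `P`, `|P| = n ≥ 2`, every `k` points of which span at least `ℓ` distinct distances, spans at least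
`c n^(6/5-ε)` distinct distances. -/
theorem result (ε : ℝ) (hε : 0 < ε) :
    ∃ γ : ℝ, 0 < γ ∧ ∃ k₀ : ℕ, ∀ k : ℕ, k₀ ≤ k → ∀ ℓ : ℕ, (k.choose 2 : ℝ) - (1 + γ) * k ≤ ℓ →
      ∃ c : ℝ, 0 < c ∧ ∀ P : Finset (EuclideanSpace ℝ (Fin 2)), 2 ≤ P.card →
        (∀ S ⊆ P, S.card = k → ℓ ≤ (S.offDiag.image (fun p => dist p.1 p.2)).card) →
        c * (P.card : ℝ) ^ (6 / 5 - ε) ≤ ((P.offDiag.image (fun p => dist p.1 p.2)).card : ℝ) :=
  Pool.Agent.Lib.LocD.six_fifths ε hε

end Pool.Agent.Results.MP_5c8454_co.AllConstants
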