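import Pool.Agent.Lib.LocD.A8

/-!
# MP_5c8454_co: distinct distances, local property with excess `k - 5`: at least `n^(5/4)/√(log n)` distances
-/

namespace Pool.Agent.Results.MP_5c8454_co.FiveQuarters

/-- Let `k ≥ 4` and `ℓ ≥ C(k,2) - 2⌊k/2⌋ + 5` (that is `C(k,2) - k + 5` for even `k` and `C(k,2) - k + 6` for odd `k`). There is
`c > 0` such that every finite planar set `P`, `|P| = n ≥ 2`, every `k` points of which span at least `ℓ` distinct distances, spans
at least `c n^(5/4)/√(log n)` distinct distances. -/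
theorem result (k : ℕ) (hk : 4 ≤ k) (ℓ : ℕ) (hℓ : k.choose 2 + 5 ≤ ℓ + 2 * (k / 2)) :
    ∃ c : ℝ, 0 < c ∧ ∀ P : Finset (EuclideanSpace ℝ (Fin 2)), 2 ≤ P.card →
      (∀ S ⊆ P, S.card = k → ℓ ≤ (S.offDiag.image (fun p => dist p.1 p.2)).card) →
      c * (P.card : ℝ) ^ (5 / 4 : ℝ) / Real.sqrt (Real.log P.card) ≤
        ((P.offDiag.image (fun p => dist p.1 p.2)).card : ℝ) :=
  Pool.Agent.Lib.LocD.five_quarters k hk ℓ hℓ

end Pool.Agent.Results.MP_5c8454_co.FiveQuarters
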